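import Pool.Agent.W719.AX.Phs

/-!
# Consequences of an expansion
-/

set_option autoImplicit false

namespace Pool.Agent.W460.AX

open Finset Filter Topology Metric
open scoped Real

/-- RAT, written out -/
theorem rat_aux (a : ℕ → ℂ) (v : ℂ) (y : ℕ → ℂ) (hy0 : y 0 ≠ 0)
    (hexp : ∀ K : ℕ, ∃ C : ℝ, ∀ᶠ N : ℕ in atTop,
      ‖a N / (((Real.sqrt N) ^ 3 : ℝ) * Complex.exp (N * v)) -
        ∑ k ∈ range K, y k / (N : ℂ) ^ k‖ ≤ C / (N : ℝ) ^ K) :
    (∀ᶠ N : ℕ in atTop, a N ≠ 0) ∧
    Tendsto (fun N : ℕ => a (N + 1) / a N) atTop (𝓝 (Complex.exp v)) ∧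
    Tendsto (fun N : ℕ => a (N + 2) / a N) atTop (𝓝 (Complex.exp (2 * v))) ∧
    Tendsto (fun N : ℕ => 2 * π * (Real.log ‖a N‖ / N)) atTop (𝓝 (2 * π * v.re)) ∧
    ∃ l : ℕ → ℂ, (∀ᶠ N : ℕ in atTop, Complex.exp (l N) = a N) ∧
      Tendsto (fun N : ℕ => 2 * π * (l N / N)) atTop (𝓝 (2 * π * v)) ∧
      Tendsto (fun N : ℕ => l (N + 1) - l N) atTop (𝓝 v) := by
  obtain ⟨C, hC⟩ := hexp 1
  obtain ⟨Y, hY⟩ : ∃ Y : ℕ → ℂ, ∀ N, Y N = a N / (((Real.sqrt N) ^ 3 : ℝ) * Complex.exp (N * v)) :=
    ⟨_, fun _ => rfl⟩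
  have hYt : Tendsto Y atTop (𝓝 (y 0)) := by
    rw [tendsto_iff_norm_sub_tendsto_zero]
    refine squeeze_zero' (Eventually.of_forall fun _ => norm_nonneg _) (hC.mono fun N hN => ?_)
      (tendsto_const_div_atTop_nhds_zero_nat C)
    rw [Finset.sum_range_one, pow_zero, div_one, pow_one, ← hY] at hN
    exact hN
  have hg : Tendsto (fun N => Complex.log (Y N / y 0)) atTop (𝓝 0) := by
    have h1 : Tendsto (fun N => Y N / y 0) atTop (𝓝 1) := by
      have := hYt.div_const (y 0)
      rwa [div_self hy0] at this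
    have h2 : ContinuousAt Complex.log 1 := continuousAt_clog (by simp [Complex.slitPlane])
    have h3 := h2.tendsto.comp h1
    rw [Complex.log_one] at h3
    exact h3
  have hYne : ∀ᶠ N in atTop, Y N ≠ 0 := hYt.eventually_ne hy0
  obtain ⟨l, hl⟩ : ∃ l : ℕ → ℂ, ∀ N, l N = ((3 / 2 * Real.log N : ℝ) : ℂ) + N * v +
    (Complex.log (Y N / y 0) + Complex.log (y 0)) := ⟨_, fun _ => rfl⟩
  have hle : ∀ᶠ N : ℕ in atTop, Complex.exp (l N) = a N := by
    filter_upwards [hYne, eventually_ge_atTop 1] with N hN hN1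
    have hs : 0 < Real.sqrt N := Real.sqrt_pos.2 (by exact_mod_cast hN1)
    have e1 : Real.exp (3 / 2 * Real.log N) = Real.sqrt N ^ 3 := by
      have h2 : 3 / 2 * Real.log N = (3 : ℕ) * Real.log (Real.sqrt N) := by
        rw [Real.log_sqrt (Nat.cast_nonneg N)]
        push_cast
        ring
      rw [h2, Real.exp_nat_mul, Real.exp_log hs]
    rw [hl, Complex.exp_add, Complex.exp_add, Complex.exp_add, Complex.exp_log hy0,
      Complex.exp_log (div_ne_zero hN hy0), div_mul_cancel₀ _ hy0, ← Complex.ofReal_exp, e1, hY]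
    have h3 : ((Real.sqrt N ^ 3 : ℝ) : ℂ) ≠ 0 := by
      exact_mod_cast (pow_pos hs 3).ne'
    have h4 := Complex.exp_ne_zero (N * v)
    rw [mul_div_cancel₀ _ (mul_ne_zero h3 h4)]
  have hane : ∀ᶠ N : ℕ in atTop, a N ≠ 0 := by
    filter_upwards [hle] with N hN
    rw [← hN]
    exact Complex.exp_ne_zero _
  have hl1 : Tendsto (fun N : ℕ => l N / N) atTop (𝓝 v) := by
    have h1 : Tendsto (fun N : ℕ => Real.log N / N) atTop (𝓝 0) := by
      have h := Real.isLittleO_log_id_atTop.tendsto_div_nhds_zero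
      exact h.comp tendsto_natCast_atTop_atTop
    have h2 : Tendsto (fun N : ℕ => (((3 / 2) * (Real.log N / N) : ℝ) : ℂ)) atTop (𝓝 0) := by
      have h3 := (Complex.continuous_ofReal.tendsto _).comp (h1.const_mul (3 / 2))
      rw [mul_zero, Complex.ofReal_zero] at h3
      exact h3
    have h3 : Tendsto (fun N : ℕ => (Complex.log (Y N / y 0) + Complex.log (y 0)) / N) atTop
        (𝓝 0) := by
      have h4 := (hg.add_const (Complex.log (y 0))).mul
        (tendsto_inv_atTop_nhds_zero_nat (𝕜 := ℂ))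
      rw [mul_zero] at h4
      exact h4
    have h5 := (h2.add_const v).add h3
    rw [zero_add, add_zero] at h5
    refine h5.congr' ?_
    filter_upwards [eventually_ge_atTop 1] with N hN
    have hN0 : (N : ℂ) ≠ 0 := by
      have : N ≠ 0 := by omega
      exact_mod_cast this
    rw [hl]
    push_cast
    field_simp
  have hl2 : Tendsto (fun N : ℕ => l (N + 1) - l N) atTop (𝓝 v) := by
    have h2 : Tendsto (fun N : ℕ => (((3 / 2) * (Real.log (N + 1) - Real.log N) : ℝ) : ℂ)) atTop
        (𝓝 0) := by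
      have h3 := (Complex.continuous_ofReal.tendsto _).comp
        (Real.tendsto_log_nat_add_one_sub_log.const_mul (3 / 2))
      rw [mul_zero, Complex.ofReal_zero] at h3
      exact h3
    have h3 := (hg.comp (tendsto_add_atTop_nat 1)).sub hg
    rw [sub_zero] at h3
    have h5 := (h2.add_const v).add h3
    rw [zero_add, add_zero] at h5
    refine h5.congr' (Eventually.of_forall fun N => ?_)
    simp only [Function.comp, hl]
    push_cast
    ring
  have hl3 : Tendsto (fun N : ℕ => l (N + 2) - l N) atTop (𝓝 (2 * v)) := by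
    have h1 := (hl2.comp (tendsto_add_atTop_nat 1)).add hl2
    rw [two_mul]
    refine h1.congr' (Eventually.of_forall fun N => ?_)
    simp only [Function.comp]
    rw [sub_add_sub_cancel]
  refine ⟨hane, ?_, ?_, ?_, l, hle, hl1.const_mul _, hl2⟩
  · have h1 := (Complex.continuous_exp.tendsto _).comp hl2
    refine h1.congr' ?_
    filter_upwards [hle, (tendsto_add_atTop_nat 1).eventually hle] with N h2 h3
    simp only [Function.comp]
    rw [Complex.exp_sub, h2, h3]
  · have h1 := (Complex.continuous_exp.tendsto _).comp hl3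
    refine h1.congr' ?_
    filter_upwards [hle, (tendsto_add_atTop_nat 2).eventually hle] with N h2 h3
    simp only [Function.comp]
    rw [Complex.exp_sub, h2, h3]
  · have h1 := (Complex.continuous_re.tendsto _).comp hl1
    refine Tendsto.const_mul _ (h1.congr' ?_)
    filter_upwards [hle] with N h2
    simp only [Function.comp]
    rw [← h2, Complex.norm_exp, Real.log_exp, Complex.div_natCast_re]

/-- RAT -/
theorem rat : Pool.Agent.W719.AX.S_RAT := fun a v y hy0 h => rat_aux a v y hy0 h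

end Pool.Agent.W460.AX
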